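import Pool.Agent.H586.GLU.Stm

/-!
# Project GLU, task EN (helper353): Riemann sum of the energy form, by polarization
-/

set_option autoImplicit false

open MeasureTheory Filter Topology

namespace Pool.Agent.H353.GLU

open Pool.Agent Pool.Agent.N990 Pool.Agent.N990.C
open Pool.Agent.N839.C (rs EL_rs)
open Pool.Agent.N109.Slab (box SF)
open Pool.Agent.H586.GLU (S_EN)

namespace EN

variable {D : ℕ}

theorem isTest_add {u v : Pt D → Fin D → ℝ} (hu : IsTest u) (hv : IsTest v) : IsTest (u + v) :=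
  ⟨hu.smooth.add hv.smooth, hu.supp.add hv.supp, fun y => by
    rw [Pi.add_apply, hu.wall, hv.wall, add_zero]⟩

theorem isTest_sub {u v : Pt D → Fin D → ℝ} (hu : IsTest u) (hv : IsTest v) : IsTest (u - v) := by
  have h : u - v = u + (-1 : ℝ) • v := by rw [neg_one_smul, sub_eq_add_neg]
  rw [h]
  refine isTest_add hu ⟨hv.smooth.const_smul (-1 : ℝ), hv.supp.smul_left (f := fun _ => (-1 : ℝ)),
    fun y => ?_⟩
  rw [Pi.smul_apply, hv.wall, smul_zero]

theorem pd_add {u v : Pt D → Fin D → ℝ} (hu : IsTest u) (hv : IsTest v) (e : Pt D) (i : Fin D)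
    (p : Pt D) : pd (u + v) e i p = pd u e i p + pd v e i p := by
  unfold pd
  rw [fderiv_add (hu.smooth.differentiable (by simp) p) (hv.smooth.differentiable (by simp) p)]
  rfl

theorem pd_sub {u v : Pt D → Fin D → ℝ} (hu : IsTest u) (hv : IsTest v) (e : Pt D) (i : Fin D)
    (p : Pt D) : pd (u - v) e i p = pd u e i p - pd v e i p := by
  unfold pd
  rw [fderiv_sub (hu.smooth.differentiable (by simp) p) (hv.smooth.differentiable (by simp) p)]
  rfl

theorem pd_cont {u : Pt D → Fin D → ℝ} (hu : IsTest u) (e : Pt D) (i : Fin D) :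
    Continuous fun p => pd u e i p := by
  unfold pd
  exact (continuous_apply i).comp ((hu.smooth.continuous_fderiv (by simp)).clm_apply
    continuous_const)

theorem dC_int {u : Pt D → Fin D → ℝ} (hu : IsTest u) : IntegrableOn (dC u) (Slb D) := by
  have hc : Continuous (dC u) := by
    unfold dC
    refine (continuous_finsetSum _ fun i _ => (pd_cont hu _ i).pow 2).add
      (continuous_finsetSum _ fun i _ => continuous_finsetSum _ fun j _ => ?_)
    split_ifs
    · exact ((pd_cont hu _ j).sub (pd_cont hu _ i)).pow 2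
    · exact continuous_const
  have hs : HasCompactSupport (dC u) := by
    refine (hu.supp.fderiv ℝ).mono fun p hp => ?_
    rw [Function.mem_support] at hp ⊢
    intro h
    apply hp
    unfold dC pd
    rw [h]
    simp
  exact (hc.integrable_of_hasCompactSupport hs).integrableOn

/-- polarization of the energy density -/
theorem dC_pol {u v : Pt D → Fin D → ℝ} (hu : IsTest u) (hv : IsTest v) (p : Pt D) :
    dC (u + v) p - dC (u - v) p = 4 * ((∑ i, pd u (ez D) i p * pd v (ez D) i p) +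
      ∑ i, ∑ j, if i < j then (pd u (eh i) j p - pd u (eh j) i p) *
        (pd v (eh i) j p - pd v (eh j) i p) else 0) := by
  unfold dC
  simp only [pd_add hu hv, pd_sub hu hv]
  rw [add_sub_add_comm, mul_add, ← Finset.sum_sub_distrib, ← Finset.sum_sub_distrib,
    Finset.mul_sum, Finset.mul_sum]
  congr 1
  · refine Finset.sum_congr rfl fun i _ => ?_
    ring
  · refine Finset.sum_congr rfl fun i _ => ?_
    rw [← Finset.sum_sub_distrib, Finset.mul_sum]
    refine Finset.sum_congr rfl fun j _ => ?_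
    split_ifs
    · ring
    · ring

theorem EC_pol {u v : Pt D → Fin D → ℝ} (hu : IsTest u) (hv : IsTest v) :
    1 / 4 * (EC (u + v) - EC (u - v)) = ∫ p in Slb D, ((∑ i, pd u (ez D) i p *
      pd v (ez D) i p) + ∑ i, ∑ j, if i < j then
      (pd u (eh i) j p - pd u (eh j) i p) * (pd v (eh i) j p - pd v (eh j) i p) else 0) := by
  unfold EC
  rw [← integral_sub (dC_int (isTest_add hu hv)) (dC_int (isTest_sub hu hv)),
    ← integral_const_mul]
  congr 1
  funext p
  rw [dC_pol hu hv p]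
  ring

variable {L : ℕ}

theorem bx_comm (χ ψ : Site D → Lab D L → ℝ) (x : Site D) : bx χ ψ x = bx ψ χ x := by
  unfold bx
  simp only [smul_eq_mul]
  congr 1
  · exact Finset.sum_congr rfl fun a _ => mul_comm _ _
  · exact Finset.sum_congr rfl fun p _ => mul_comm _ _

theorem bx_pol (χ ψ : Site D → Lab D L → ℝ) (x : Site D) :
    bx χ ψ x = 1 / 4 * (bx (χ + ψ) (χ + ψ) x - bx (χ - ψ) (χ - ψ) x) := by
  have h : χ - ψ = χ + (-1 : ℝ) • ψ := by rw [neg_one_smul, sub_eq_add_neg]
  rw [h, bx_add_left, bx_add_right, bx_add_right, bx_add_left, bx_add_right, bx_add_right,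
    bx_smul_left, bx_smul_left, bx_smul_right, bx_smul_right, bx_comm ψ χ]
  simp only [smul_eq_mul]
  ring

theorem rs_add (u v : Pt D → Fin D → ℝ) : rs L (u + v) = rs L u + rs L v := rfl

theorem rs_sub (u v : Pt D → Fin D → ℝ) : rs L (u - v) = rs L u - rs L v := rfl

end EN

open EN in
/-- **Task GLU-EN** -/
theorem en : S_EN := by
  intro D φ1 φ2 h1 h2 K hK
  have hlim : Tendsto (fun L : ℕ => 1 / 4 * (EL (rs L (φ1 + φ2)) - EL (rs L (φ1 - φ2)))) atTop
      (𝓝 (1 / 4 * (EC (φ1 + φ2) - EC (φ1 - φ2)))) :=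
    ((EL_rs (isTest_add h1 h2)).sub (EL_rs (isTest_sub h1 h2))).const_mul _
  rw [EC_pol h1 h2] at hlim
  refine hlim.congr' ?_
  filter_upwards [eventually_ge_atTop 1] with L hL
  have hz1 : ∀ x ∉ box D (K * L), rs L (φ1 + φ2) x = 0 := by
    intro x hx
    rw [rs_add, Pi.add_apply, (hK L hL x hx).1, (hK L hL x hx).2, add_zero]
  have hz2 : ∀ x ∉ box D (K * L), rs L (φ1 - φ2) x = 0 := by
    intro x hx
    rw [rs_sub, Pi.sub_apply, (hK L hL x hx).1, (hK L hL x hx).2, sub_zero]
  rw [EL_eq hL hz1 (Finset.Subset.refl _), EL_eq hL hz2 (Finset.Subset.refl _), rs_add, rs_sub]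
  have hL0 : (L : ℝ) ≠ 0 := by
    have : (1 : ℝ) ≤ L := by exact_mod_cast hL
    positivity
  have e1 : ∑ x ∈ Ns (box D (K * L)), bx (rs L φ1 : SF D L) (rs L φ2) x =
      1 / 4 * (∑ x ∈ Ns (box D (K * L)), bx (rs L φ1 + rs L φ2) (rs L φ1 + rs L φ2) x -
        ∑ x ∈ Ns (box D (K * L)), bx (rs L φ1 - rs L φ2) (rs L φ1 - rs L φ2) x) := by
    rw [← Finset.sum_sub_distrib, Finset.mul_sum]
    exact Finset.sum_congr rfl fun x _ => bx_pol _ _ x
  rw [e1]
  have e2 : (1 / (L : ℝ)) ^ (D + 1) * (L : ℝ) ^ 2 = ((L : ℝ) ^ D)⁻¹ * L := by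
    rw [one_div, inv_pow, pow_succ]
    field_simp
  linear_combination (1 / 4 * (∑ x ∈ Ns (box D (K * L)),
    bx (rs L φ1 + rs L φ2) (rs L φ1 + rs L φ2) x -
      ∑ x ∈ Ns (box D (K * L)), bx (rs L φ1 - rs L φ2) (rs L φ1 - rs L φ2) x)) * e2

end Pool.Agent.H353.GLU
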